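import Pool.Agent.H31.LOC.Defs
import Pool.Agent.H61.TT.Fib
import Pool.Agent.H56.UE.UEX

/-!
# [H47 LI Ue] upper exponents on a compact invariant set `M` without poles

`it_coe`: the orbit of a point of `M` on the sphere. `ue_s`: no positive upper exponent at `z ∈ M`: `‖Dn gg n z‖ ≤ A exp (ε n)`.
-/

set_option autoImplicit false

open Filter Topology Polynomial Metric Set MeasureTheory

namespace Pool.Agent.H47.LI

open Pool.Agent.H31.LOC
open Pool.Agent.H44.Fatou (rat rat_coe_of_ne)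
open Pool.Agent.H35.EX (chord)
open Pool.Agent.H61.TT (gg dg ww RatD hasDerivAt_gg differentiableAt_dg)
open Pool.Agent.H56.UE (PUE)

variable {a b : Polynomial ℂ} {M : Set ℂ}

theorem rat_gg {z : ℂ} (hz : b.eval z ≠ 0) : rat a b (z : OnePoint ℂ) = ((gg a b z : ℂ) : OnePoint ℂ) := rat_coe_of_ne hz

theorem it_of {z : ℂ} {n : ℕ} (h : ∀ i < n, b.eval ((gg a b)^[i] z) ≠ 0) :
    (rat a b)^[n] (z : OnePoint ℂ) = (((gg a b)^[n] z : ℂ) : OnePoint ℂ) := by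
  induction n with
  | zero => rfl
  | succ n ih =>
    rw [Function.iterate_succ_apply', Function.iterate_succ_apply', ih (fun i hi => h i (by omega)), rat_gg (h n (by omega))]

theorem it_mem (hi : ∀ x ∈ M, gg a b x ∈ M) {z : ℂ} (hz : z ∈ M) (n : ℕ) : (gg a b)^[n] z ∈ M := by
  induction n with
  | zero => exact hz
  | succ n ih => rw [Function.iterate_succ_apply']; exact hi _ ih

theorem it_coe (hb : ∀ x ∈ M, b.eval x ≠ 0) (hi : ∀ x ∈ M, gg a b x ∈ M) {z : ℂ} (hz : z ∈ M) (n : ℕ) :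
    (rat a b)^[n] (z : OnePoint ℂ) = (((gg a b)^[n] z : ℂ) : OnePoint ℂ) :=
  it_of fun i _ => hb _ (it_mem hi hz i)

theorem hasDerivAt_it (hb : ∀ x ∈ M, b.eval x ≠ 0) (hi : ∀ x ∈ M, gg a b x ∈ M) {z : ℂ} (hz : z ∈ M) (n : ℕ) :
    HasDerivAt ((gg a b)^[n]) (Dn (gg a b) n z) z := by
  induction n with
  | zero =>
    have h1 : Dn (gg a b) 0 z = 1 := by
      unfold Dn
      rw [Finset.range_zero, Finset.prod_empty]
    rw [h1]
    exact hasDerivAt_id z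
  | succ n ih =>
    have h1 : HasDerivAt (gg a b) (dg a b ((gg a b)^[n] z)) ((gg a b)^[n] z) := hasDerivAt_gg (hb _ (it_mem hi hz n))
    have h2 := h1.comp z ih
    rw [Function.iterate_succ']
    refine h2.congr_deriv ?_
    unfold Dn
    rw [Finset.prod_range_succ, h1.deriv, mul_comm]

theorem ch_le (x y : ℂ) : chord (x : OnePoint ℂ) (y : OnePoint ℂ) ≤ ‖x - y‖ := by
  change ‖x - y‖ / (√(1 + ‖x‖ ^ 2) * √(1 + ‖y‖ ^ 2)) ≤ ‖x - y‖
  have h1 : ∀ c : ℂ, 1 ≤ √(1 + ‖c‖ ^ 2) := fun c => by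
    rw [Real.one_le_sqrt]
    nlinarith [norm_nonneg c]
  have h2 := h1 x
  have h3 := h1 y
  exact div_le_self (norm_nonneg _) (by nlinarith)

theorem ch_ge {R : ℝ} {x y : ℂ} (hx : ‖x‖ ≤ R) (hy : ‖y‖ ≤ R) : ‖x - y‖ ≤ (1 + R ^ 2) * chord (x : OnePoint ℂ) (y : OnePoint ℂ) := by
  change ‖x - y‖ ≤ (1 + R ^ 2) * (‖x - y‖ / (√(1 + ‖x‖ ^ 2) * √(1 + ‖y‖ ^ 2)))
  have hR : 0 ≤ R := (norm_nonneg x).trans hx
  have h1 : √(1 + ‖x‖ ^ 2) ≤ √(1 + R ^ 2) := Real.sqrt_le_sqrt (by nlinarith [norm_nonneg x])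
  have h2 : √(1 + ‖y‖ ^ 2) ≤ √(1 + R ^ 2) := Real.sqrt_le_sqrt (by nlinarith [norm_nonneg y])
  have h3 : 0 < √(1 + ‖x‖ ^ 2) * √(1 + ‖y‖ ^ 2) := by positivity
  have h4 : √(1 + ‖x‖ ^ 2) * √(1 + ‖y‖ ^ 2) ≤ 1 + R ^ 2 := by
    calc √(1 + ‖x‖ ^ 2) * √(1 + ‖y‖ ^ 2) ≤ √(1 + R ^ 2) * √(1 + R ^ 2) := mul_le_mul h1 h2 (by positivity) (by positivity)
      _ = 1 + R ^ 2 := Real.mul_self_sqrt (by positivity)
  rw [← mul_div_assoc, le_div_iff₀ h3, mul_comm]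
  exact mul_le_mul_of_nonneg_right h4 (norm_nonneg _)

theorem ue_s (hM : IsCompact M) (hb : ∀ x ∈ M, b.eval x ≠ 0) (hi : ∀ x ∈ M, gg a b x ∈ M) {z : ℂ} (hz : z ∈ M)
    (hU : ¬ PUE (rat a b) (z : OnePoint ℂ)) :
    ∀ ε : ℝ, 0 < ε → ∃ A : ℝ, ∀ n : ℕ, ‖Dn (gg a b) n z‖ ≤ A * Real.exp (ε * n) := by
  intro ε hε
  obtain ⟨R0, hR0⟩ := hM.isBounded.exists_norm_le
  obtain ⟨R, hR⟩ : ∃ R : ℝ, R = max R0 0 + 1 := ⟨_, rfl⟩
  have hR1 : 0 ≤ R := by rw [hR]; positivity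
  have hRM : ∀ x ∈ M, ‖x‖ ≤ R - 1 := fun x hx => by
    have := (hR0 x hx).trans (le_max_left R0 0)
    rw [hR]
    linarith
  obtain ⟨Q, hQ⟩ : ∃ Q : ℝ, Q = 2 * (1 + R ^ 2) := ⟨_, rfl⟩
  have hQ0 : 0 < Q := by rw [hQ]; positivity
  have h1 : ∀ᶠ n : ℕ in atTop, ‖Dn (gg a b) n z‖ ≤ Q * Real.exp (ε * n) := by
    by_contra hcon
    apply hU
    refine ⟨Real.exp ε, Real.one_lt_exp_iff.2 hε, ?_⟩
    have h2 : ∃ᶠ n : ℕ in atTop, ¬ ‖Dn (gg a b) n z‖ ≤ Q * Real.exp (ε * n) := not_eventually.1 hcon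
    refine h2.mono fun n hn => ?_
    rw [not_le] at hn
    have hD := hasDerivAt_it hb hi hz n
    have hn0 : 0 < ‖Dn (gg a b) n z‖ := lt_trans (by positivity) hn
    -- the iterates near `z`
    have hev : ∀ m : ℕ, ∀ᶠ y in 𝓝 z, ∀ i < m, b.eval ((gg a b)^[i] y) ≠ 0 := by
      intro m
      have : ∀ i ∈ Finset.range m, ∀ᶠ y in 𝓝 z, b.eval ((gg a b)^[i] y) ≠ 0 := by
        intro i _
        have hc : ContinuousAt (fun y => b.eval ((gg a b)^[i] y)) z :=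
          b.continuous.continuousAt.comp (hasDerivAt_it hb hi hz i).continuousAt
        exact hc.eventually_ne (hb _ (it_mem hi hz i))
      have h4 := (Finset.eventually_all (Finset.range m)).2 this
      filter_upwards [h4] with y hy i hi'
      exact hy i (Finset.mem_range.2 hi')
    have hE := (hasDerivAt_iff_isLittleO.1 hD).def (show (0 : ℝ) < ‖Dn (gg a b) n z‖ / 2 by positivity)
    have hB : ∀ᶠ y in 𝓝 z, ‖(gg a b)^[n] y‖ < R := by
      have h5 : ‖(gg a b)^[n] z‖ < R := by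
        have := hRM _ (it_mem hi hz n)
        linarith
      exact hD.continuousAt.norm.eventually (gt_mem_nhds h5)
    have hall : ∀ᶠ y : ℂ in 𝓝 z, Real.exp ε ^ n * chord (z : OnePoint ℂ) (y : OnePoint ℂ) ≤
        chord ((rat a b)^[n] (z : OnePoint ℂ)) ((rat a b)^[n] (y : OnePoint ℂ)) := by
      filter_upwards [hev n, hE, hB] with y hy1 hy2 hy3
      rw [it_coe hb hi hz n, it_of hy1]
      rw [smul_eq_mul] at hy2
      have h6 : ‖(y - z) * Dn (gg a b) n z‖ ≤ ‖(gg a b)^[n] y - (gg a b)^[n] z‖ +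
          ‖(gg a b)^[n] y - (gg a b)^[n] z - (y - z) * Dn (gg a b) n z‖ := by
        have := norm_sub_le ((gg a b)^[n] y - (gg a b)^[n] z) ((gg a b)^[n] y - (gg a b)^[n] z - (y - z) * Dn (gg a b) n z)
        rwa [sub_sub_cancel] at this
      rw [norm_mul] at h6
      have h7 : ‖y - z‖ * ‖Dn (gg a b) n z‖ / 2 ≤ ‖(gg a b)^[n] y - (gg a b)^[n] z‖ := by nlinarith
      have h8 := ch_ge (R := R) (x := (gg a b)^[n] z) (y := (gg a b)^[n] y)
        ((hRM _ (it_mem hi hz n)).trans (by linarith)) hy3.le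
      rw [norm_sub_rev] at h8
      have h9 := ch_le z y
      rw [norm_sub_rev] at h9
      have h10 : Q * Real.exp (ε * n) * ‖y - z‖ ≤ ‖Dn (gg a b) n z‖ * ‖y - z‖ :=
        mul_le_mul_of_nonneg_right hn.le (norm_nonneg _)
      have h11 : (1 + R ^ 2) * (Real.exp (ε * n) * ‖y - z‖) ≤ (1 + R ^ 2) * chord (((gg a b)^[n] z : ℂ) : OnePoint ℂ)
          (((gg a b)^[n] y : ℂ) : OnePoint ℂ) := by
        refine le_trans ?_ h8
        refine le_trans ?_ h7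
        rw [hQ] at h10
        linarith
      have h12 := le_of_mul_le_mul_left h11 (by positivity)
      have h13 : Real.exp ε ^ n = Real.exp (ε * n) := by
        rw [← Real.exp_nat_mul, mul_comm]
      rw [h13]
      exact (mul_le_mul_of_nonneg_left h9 (Real.exp_pos _).le).trans h12
    have hemb : 𝓝 (z : OnePoint ℂ) = Filter.map (fun w : ℂ => (w : OnePoint ℂ)) (𝓝 z) :=
      (OnePoint.isOpenEmbedding_coe.map_nhds_eq z).symm
    rw [hemb, eventually_map]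
    exact hall
  obtain ⟨N, hN⟩ := eventually_atTop.1 h1
  refine ⟨Q + ∑ n ∈ Finset.range N, ‖Dn (gg a b) n z‖, fun n => ?_⟩
  have h2 : 0 ≤ ∑ n ∈ Finset.range N, ‖Dn (gg a b) n z‖ := Finset.sum_nonneg fun _ _ => norm_nonneg _
  rcases lt_or_ge n N with hn | hn
  · have h3 : ‖Dn (gg a b) n z‖ ≤ ∑ n ∈ Finset.range N, ‖Dn (gg a b) n z‖ :=
      Finset.single_le_sum (f := fun n => ‖Dn (gg a b) n z‖) (fun _ _ => norm_nonneg _) (Finset.mem_range.2 hn)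
    have h4 : 1 ≤ Real.exp (ε * n) := Real.one_le_exp (by positivity)
    nlinarith
  · refine (hN n hn).trans ?_
    refine mul_le_mul_of_nonneg_right (by linarith) (Real.exp_pos _).le

end Pool.Agent.H47.LI
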