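import Pool.Agent.H31.LOC.Defs
import Pool.Agent.H61.TT.Fib

/-!
# [H47 LI Gs] the growth setting near a compact invariant set `M` without poles, all critical points in `M` simple

`gs_of`: the structure `GS` for `gg a b`, `M`, `S = {c | c ∈ M ∧ (ww a b).eval c = 0}`, all small `δ`.
-/

set_option autoImplicit false

open Filter Topology Polynomial Metric Set MeasureTheory

namespace Pool.Agent.H47.LI

open Pool.Agent.H31.LOC
open Pool.Agent.H61.TT (gg dg ww RatD hasDerivAt_gg differentiableAt_dg)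

variable {a b : Polynomial ℂ} {M : Set ℂ}

/-- a point of `M` with small derivative is near a critical point -/
theorem gs_lo (hM : IsCompact M) (hb : ∀ x ∈ M, b.eval x ≠ 0)
    (hs : ∀ c ∈ M, (ww a b).eval c = 0 → (derivative (ww a b)).eval c ≠ 0) : ∃ B : ℝ, 0 < B ∧ ∀ x ∈ M,
      (∃ c ∈ M, (ww a b).eval c = 0 ∧ ‖x - c‖ ≤ B * ‖dg a b x‖) ∨ 1 ≤ B * ‖dg a b x‖ := by
  have key : ∃ B : ℝ, 0 < B ∧ ∀ x ∈ M, x ∈ M →
      ((∃ c ∈ M, (ww a b).eval c = 0 ∧ ‖x - c‖ ≤ B * ‖dg a b x‖) ∨ 1 ≤ B * ‖dg a b x‖) := by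
    refine hM.induction_on (p := fun S => ∃ B : ℝ, 0 < B ∧ ∀ x ∈ S, x ∈ M →
      ((∃ c ∈ M, (ww a b).eval c = 0 ∧ ‖x - c‖ ≤ B * ‖dg a b x‖) ∨ 1 ≤ B * ‖dg a b x‖)) ?_ ?_ ?_ ?_
    · exact ⟨1, one_pos, fun x hx => absurd hx (notMem_empty x)⟩
    · rintro s t hst ⟨B, hB, h⟩
      exact ⟨B, hB, fun x hx => h x (hst hx)⟩
    · rintro s t ⟨B, hB, h⟩ ⟨B', hB', h'⟩
      refine ⟨max B B', lt_of_lt_of_le hB (le_max_left _ _), fun x hx hxM => ?_⟩
      rcases hx with hx | hx
      · rcases h x hx hxM with ⟨c, hc, hw, hd⟩ | hd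
        · exact Or.inl ⟨c, hc, hw, hd.trans (mul_le_mul_of_nonneg_right (le_max_left _ _) (norm_nonneg _))⟩
        · exact Or.inr (hd.trans (mul_le_mul_of_nonneg_right (le_max_left _ _) (norm_nonneg _)))
      · rcases h' x hx hxM with ⟨c, hc, hw, hd⟩ | hd
        · exact Or.inl ⟨c, hc, hw, hd.trans (mul_le_mul_of_nonneg_right (le_max_right _ _) (norm_nonneg _))⟩
        · exact Or.inr (hd.trans (mul_le_mul_of_nonneg_right (le_max_right _ _) (norm_nonneg _)))
    · intro p hp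
      have hbp := hb p hp
      have hdp : DifferentiableAt ℂ (dg a b) p := differentiableAt_dg hbp
      by_cases hw : (ww a b).eval p = 0
      · have h0 : dg a b p = 0 := by
          unfold dg
          rw [hw, zero_div]
        have hD : HasDerivAt (dg a b) ((derivative (ww a b)).eval p / b.eval p ^ 2) p := by
          have h2 := ((ww a b).hasDerivAt p).div ((b.hasDerivAt p).pow 2) (pow_ne_zero 2 hbp)
          refine h2.congr_deriv ?_
          rw [hw]
          simp only [Pi.pow_apply]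
          have : b.eval p ^ 2 ≠ 0 := pow_ne_zero 2 hbp
          field_simp
          ring
        obtain ⟨D, hDe⟩ : ∃ D, D = (derivative (ww a b)).eval p / b.eval p ^ 2 := ⟨_, rfl⟩
        rw [← hDe] at hD
        have hD0 : 0 < ‖D‖ := by
          rw [norm_pos_iff, hDe]
          exact div_ne_zero (hs p hp hw) (pow_ne_zero 2 hbp)
        have h1 := hasDerivAt_iff_isLittleO.1 hD
        have h2 := h1.def (show (0 : ℝ) < ‖D‖ / 2 by positivity)
        refine ⟨_, mem_nhdsWithin_of_mem_nhds h2, 2 / ‖D‖, by positivity, fun x hx _ => Or.inl ⟨p, hp, hw, ?_⟩⟩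
        simp only [mem_setOf_eq] at hx
        rw [h0, sub_zero, smul_eq_mul] at hx
        have h3 : ‖(x - p) * D‖ ≤ ‖dg a b x‖ + ‖dg a b x - (x - p) * D‖ := by
          have := norm_sub_le (dg a b x) (dg a b x - (x - p) * D)
          rwa [sub_sub_cancel] at this
        rw [norm_mul] at h3
        have h4 : ‖x - p‖ * ‖D‖ ≤ 2 * ‖dg a b x‖ := by nlinarith
        rw [div_mul_eq_mul_div, le_div_iff₀ hD0]
        exact h4
      · have h0 : dg a b p ≠ 0 := div_ne_zero hw (pow_ne_zero 2 hbp)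
        have h0' : 0 < ‖dg a b p‖ := norm_pos_iff.2 h0
        have h1 : ∀ᶠ x in 𝓝 p, ‖dg a b p‖ / 2 < ‖dg a b x‖ :=
          (hdp.continuousAt.norm).eventually (lt_mem_nhds (by linarith))
        refine ⟨_, mem_nhdsWithin_of_mem_nhds h1, 2 / ‖dg a b p‖, by positivity, fun x hx _ => Or.inr ?_⟩
        have hx' : ‖dg a b p‖ / 2 < ‖dg a b x‖ := hx
        rw [div_mul_eq_mul_div, le_div_iff₀ h0']
        linarith
  obtain ⟨B, hB, h⟩ := key
  exact ⟨B, hB, fun x hx => h x hx hx⟩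

theorem gs_of (hM : IsCompact M) (hb : ∀ x ∈ M, b.eval x ≠ 0) (hi : ∀ x ∈ M, gg a b x ∈ M)
    (hs : ∀ c ∈ M, (ww a b).eval c = 0 → (derivative (ww a b)).eval c ≠ 0) : ∃ δ1 B : ℝ, 0 < δ1 ∧
      (∀ x ∈ thickening δ1 M, b.eval x ≠ 0) ∧
      ∀ δ : ℝ, 0 < δ → δ ≤ δ1 → GS (gg a b) M {c | c ∈ M ∧ (ww a b).eval c = 0} δ B := by
  obtain ⟨B1, hB1, hlo⟩ := gs_lo hM hb hs
  have hU : IsOpen {z : ℂ | b.eval z ≠ 0} := isOpen_ne_fun b.continuous continuous_const
  obtain ⟨δ0, hδ0, hth⟩ := hM.exists_cthickening_subset_open hU hb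
  have hK : IsCompact (cthickening δ0 M) := hM.cthickening
  have hne : ∀ x ∈ cthickening δ0 M, b.eval x ≠ 0 := fun x hx => hth hx
  have hdc : ContinuousOn (dg a b) (cthickening δ0 M) := fun x hx =>
    (differentiableAt_dg (hne x hx)).continuousAt.continuousWithinAt
  have hddc : ContinuousOn (deriv (dg a b)) (cthickening δ0 M) := by
    have h1 : DifferentiableOn ℂ (dg a b) {z : ℂ | b.eval z ≠ 0} := fun x hx =>
      (differentiableAt_dg hx).differentiableWithinAt
    exact (h1.deriv hU).continuousOn.mono hth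
  obtain ⟨C1, hC1⟩ := hK.exists_bound_of_continuousOn hdc
  obtain ⟨C2, hC2⟩ := hK.exists_bound_of_continuousOn hddc
  obtain ⟨B, hBe⟩ : ∃ B : ℝ, B = max (max B1 C1) (max C2 1) := ⟨_, rfl⟩
  have b1 : B1 ≤ B := hBe ▸ (le_max_left _ _).trans (le_max_left _ _)
  have b2 : C1 ≤ B := hBe ▸ (le_max_right _ _).trans (le_max_left _ _)
  have b3 : C2 ≤ B := hBe ▸ (le_max_left _ _).trans (le_max_right _ _)
  have b4 : 1 ≤ B := hBe ▸ (le_max_right _ _).trans (le_max_right _ _)
  have hsub : thickening (min δ0 1) M ⊆ cthickening δ0 M :=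
    (thickening_mono (min_le_left _ _) M).trans (thickening_subset_cthickening _ _)
  have hball : ∀ x ∈ M, ball x (min δ0 1) ⊆ cthickening δ0 M := fun x hx =>
    (ball_subset_thickening hx _).trans hsub
  have hder : ∀ x ∈ M, deriv (gg a b) x = dg a b x := fun x hx => (hasDerivAt_gg (hb x hx)).deriv
  refine ⟨min δ0 1, B, by positivity, fun x hx => hne x (hsub hx), fun δ hδ hδ1 => ⟨hδ, b4, hM, hi, fun c hc => hc.1, ?_, ?_, ?_, ?_, ?_⟩⟩
  · intro z hz
    exact (hasDerivAt_gg (hne z (hsub (thickening_mono hδ1 M hz)))).differentiableAt.differentiableWithinAt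
  · intro x hx z hz
    rw [hder x hx]
    have hz1 : ‖z - x‖ < min δ0 1 := hz.trans_le hδ1
    -- the derivative is Lipschitz on the ball
    have hL : ∀ y ∈ ball x (min δ0 1), ‖dg a b y - dg a b x‖ ≤ B * ‖y - x‖ := by
      intro y hy
      refine (convex_ball x (min δ0 1)).norm_image_sub_le_of_norm_deriv_le (f := dg a b) ?_ ?_
        (mem_ball_self (by positivity)) hy
      · intro w hw
        exact differentiableAt_dg (hne w (hball x hx hw))
      · intro w hw
        exact (hC2 w (hball x hx hw)).trans b3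
    have hseg : ∀ y ∈ segment ℝ x z, y ∈ ball x (min δ0 1) := by
      intro y hy
      exact (convex_ball x (min δ0 1)).segment_subset (mem_ball_self (by positivity))
        (by rw [mem_ball, dist_eq_norm]; exact hz1) hy
    have h2 := (convex_segment x z).norm_image_sub_le_of_norm_deriv_le (f := fun y => gg a b y - dg a b x * y) (C := B * ‖z - x‖)
      (x := x) (y := z) ?_ ?_ (left_mem_segment ℝ x z) (right_mem_segment ℝ x z)
    · have e : gg a b z - gg a b x - dg a b x * (z - x) = gg a b z - dg a b x * z - (gg a b x - dg a b x * x) := by ring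
      rw [e]
      refine h2.trans (le_of_eq ?_)
      ring
    · intro y hy
      exact (hasDerivAt_gg (hne y (hball x hx (hseg y hy)))).differentiableAt.sub (differentiableAt_id.const_mul _)
    · intro y hy
      have h3 : HasDerivAt (fun y => gg a b y - dg a b x * y) (dg a b y - dg a b x * 1) y :=
        (hasDerivAt_gg (hne y (hball x hx (hseg y hy)))).sub ((hasDerivAt_id y).const_mul _)
      rw [h3.deriv, mul_one]
      refine (hL y (hseg y hy)).trans ?_
      refine mul_le_mul_of_nonneg_left ?_ (by linarith)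
      obtain ⟨t, ht0, ht1, rfl⟩ : ∃ t : ℝ, 0 ≤ t ∧ t ≤ 1 ∧ x + t • (z - x) = y := by
        rw [segment_eq_image'] at hy
        obtain ⟨t, ⟨h0, h1⟩, h2⟩ := hy
        exact ⟨t, h0, h1, h2⟩
      rw [add_sub_cancel_left, norm_smul, Real.norm_eq_abs, abs_of_nonneg ht0]
      exact mul_le_of_le_one_left (norm_nonneg _) ht1
  · intro x hx
    rw [hder x hx]
    exact (hC1 x (self_subset_cthickening M hx)).trans b2
  · rintro c ⟨hc, hw⟩
    rw [hder c hc]
    unfold dg
    rw [hw, zero_div]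
  · intro x hx r hr hBr
    rw [hder x hx] at hBr
    rcases hlo x hx with ⟨c, hc, hw, hd⟩ | hd
    · exact ⟨c, ⟨hc, hw⟩, hd.trans ((mul_le_mul_of_nonneg_right b1 (norm_nonneg _)).trans hBr)⟩
    · have h1 := hd.trans (mul_le_mul_of_nonneg_right b1 (norm_nonneg _))
      have h2 : δ ≤ 1 := hδ1.trans (min_le_right _ _)
      linarith

theorem gs_mono {f : ℂ → ℂ} {S : Set ℂ} {δ B B' : ℝ} (h : GS f M S δ B) (hB : B ≤ B') : GS f M S δ B' :=
  ⟨h.hδ, h.hB.trans hB, h.Mc, h.inv, h.SM, h.fd, fun x hx z hz => (h.d2 x hx z hz).trans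
    (mul_le_mul_of_nonneg_right hB (by positivity)), fun x hx => (h.db x hx).trans hB, h.cs, fun x hx r hr hr' =>
    h.lo x hx r hr ((mul_le_mul_of_nonneg_right hB (norm_nonneg _)).trans hr')⟩

theorem kn_mono {q r : ℂ → ℂ → ℂ} {N Z : Set ℂ} {C C' : ℝ} (h : KN q r M N Z C) (hC : C ≤ C') : KN q r M N Z C' :=
  ⟨h.hC.trans hC, h.Mc, h.No, h.Nb, h.MN, h.NZ, h.Zm, h.qm, h.eq, h.rx, h.rw, fun x hx w hw => (h.rb x hx w hw).trans hC,
    h.qx, fun x hx => (h.qi x hx).trans (ENNReal.ofReal_le_ofReal hC)⟩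

end Pool.Agent.H47.LI
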