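import Pool.Agent.H31.LOC.Defs
import Pool.Agent.H66.UP.KI3

/-!
# [H47 LI Kn] THEOREM LOC, Julia set = sphere: the kernel `KA` near `M`

`kn_s`: the structure `KN` for `q = KA`, `r x w = (x - 1) / w - x / (w - 1)`, `Z = univ`, `N` a bounded neighbourhood of `M` at a positive distance from `0` and `1`.
-/

set_option autoImplicit false

open Filter Topology Polynomial Metric Set MeasureTheory

namespace Pool.Agent.H47.LI

open Pool.Agent.H31.LOC
open Pool.Agent.H1.PU (KA)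

/-- the regular part of the kernel -/
noncomputable def rA (x w : ℂ) : ℂ := (x - 1) / w - x / (w - 1)

theorem ka_zero (w : ℂ) : KA 0 w = 0 := by
  unfold KA
  rw [zero_mul, zero_div]

theorem ka_one (w : ℂ) : KA 1 w = 0 := by
  unfold KA
  rw [sub_self, mul_zero, zero_div]

theorem ka_int_le : ∃ C : ℝ, 0 < C ∧ ∀ x : ℂ, ∫⁻ w : ℂ, ‖KA x w‖ₑ ≤ ENNReal.ofReal (C * (1 + ‖x‖ * (1 + Real.log (1 + ‖x‖)))) := by
  obtain ⟨C, hC, h⟩ := Pool.Agent.H66.UP.ki3_ka
  refine ⟨C, hC, fun x => ?_⟩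
  have hl : 0 ≤ Real.log (1 + ‖x‖) := Real.log_nonneg (by linarith [norm_nonneg x])
  rcases eq_or_ne x 0 with rfl | hx
  · simp only [ka_zero, enorm_zero, lintegral_zero]
    exact zero_le
  have hx0 : 0 < ‖x‖ := norm_pos_iff.2 hx
  rcases le_total ‖x‖ 1 with h1 | h1
  · have h2 := h x 0 1 hx (by rw [sub_zero, sub_zero, norm_one]; exact h1)
    have e : ∀ w : ℂ, KA x w - KA 0 w - (x - 0) / (1 - 0) * (KA 1 w - KA 0 w) = KA x w := by
      intro w
      rw [ka_zero, ka_one]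
      ring
    simp only [e] at h2
    refine h2.trans (ENNReal.ofReal_le_ofReal ?_)
    rw [sub_zero, sub_zero, norm_one]
    have h3 : Real.log (1 / ‖x‖) ≤ 1 / ‖x‖ - 1 := Real.log_le_sub_one_of_pos (by positivity)
    have h4 : ‖x‖ * (1 + Real.log (1 / ‖x‖)) ≤ 1 := by
      calc ‖x‖ * (1 + Real.log (1 / ‖x‖)) ≤ ‖x‖ * (1 / ‖x‖) := mul_le_mul_of_nonneg_left (by linarith) hx0.le
        _ = 1 := mul_one_div_cancel hx0.ne'
    calc C * ‖x‖ * (1 + Real.log (1 / ‖x‖)) = C * (‖x‖ * (1 + Real.log (1 / ‖x‖))) := by ring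
      _ ≤ C * (1 + ‖x‖ * (1 + Real.log (1 + ‖x‖))) := by
        refine mul_le_mul_of_nonneg_left ?_ hC.le
        have : 0 ≤ ‖x‖ * (1 + Real.log (1 + ‖x‖)) := by positivity
        linarith
  · have h2 := h 1 0 x one_ne_zero (by rw [sub_zero, sub_zero, norm_one]; exact h1)
    have e : ∀ w : ℂ, KA 1 w - KA 0 w - (1 - 0) / (x - 0) * (KA x w - KA 0 w) = - (1 / x) * KA x w := by
      intro w
      rw [ka_zero, ka_one]
      ring
    simp only [e] at h2
    rw [sub_zero, sub_zero, norm_one, mul_one, div_one] at h2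
    have h3 : ∫⁻ w : ℂ, ‖- (1 / x) * KA x w‖ₑ = ‖- (1 / x)‖ₑ * ∫⁻ w : ℂ, ‖KA x w‖ₑ := by
      simp only [enorm_mul]
      rw [lintegral_const_mul' _ _ enorm_ne_top]
    rw [h3] at h2
    have h4 : ‖x‖ₑ * ‖- (1 / x)‖ₑ = 1 := by
      rw [← enorm_mul]
      have : x * -(1 / x) = -1 := by field_simp
      rw [this, enorm_neg, enorm_one]
    calc ∫⁻ w : ℂ, ‖KA x w‖ₑ = ‖x‖ₑ * (‖- (1 / x)‖ₑ * ∫⁻ w : ℂ, ‖KA x w‖ₑ) := by rw [← mul_assoc, h4, one_mul]
      _ ≤ ‖x‖ₑ * ENNReal.ofReal (C * (1 + Real.log ‖x‖)) := mul_le_mul' le_rfl h2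
      _ = ENNReal.ofReal (‖x‖ * (C * (1 + Real.log ‖x‖))) := by
        rw [← ofReal_norm_eq_enorm, ← ENNReal.ofReal_mul (norm_nonneg _)]
      _ ≤ _ := by
        refine ENNReal.ofReal_le_ofReal ?_
        have h5 : Real.log ‖x‖ ≤ Real.log (1 + ‖x‖) := Real.log_le_log hx0 (by linarith)
        calc ‖x‖ * (C * (1 + Real.log ‖x‖)) = C * (‖x‖ * (1 + Real.log ‖x‖)) := by ring
          _ ≤ C * (1 + ‖x‖ * (1 + Real.log (1 + ‖x‖))) := by
            refine mul_le_mul_of_nonneg_left ?_ hC.le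
            have := mul_le_mul_of_nonneg_left h5 hx0.le
            linarith

theorem kn_s {M N : Set ℂ} (hM : IsCompact M) (hN : IsOpen N) (hb : Bornology.IsBounded N) (hMN : M ⊆ N) {s : ℝ} (hs : 0 < s)
    (h0 : ∀ z ∈ N, s ≤ ‖z‖) (h1 : ∀ z ∈ N, s ≤ ‖z - 1‖) : ∃ C : ℝ, KN KA rA M N univ C := by
  obtain ⟨R, hR⟩ := (isBounded_iff_forall_norm_le (s := N)).1 hb
  obtain ⟨C, hC, h⟩ := ka_int_le
  obtain ⟨R1, hR1⟩ : ∃ R1 : ℝ, R1 = max R 0 := ⟨_, rfl⟩
  have hR10 : 0 ≤ R1 := hR1 ▸ le_max_right _ _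
  have hRN : ∀ z ∈ N, ‖z‖ ≤ R1 := fun z hz => (hR z hz).trans (hR1 ▸ le_max_left _ _)
  have hl : 0 ≤ Real.log (1 + R1) := Real.log_nonneg (by linarith)
  have hw0 : ∀ w ∈ N, w ≠ 0 := fun w hw h2 => by
    have := h0 w hw
    rw [h2, norm_zero] at this
    linarith
  have hw1 : ∀ w ∈ N, w ≠ 1 := fun w hw h2 => by
    have := h1 w hw
    rw [h2, sub_self, norm_zero] at this
    linarith
  refine ⟨1 + (R1 + 1) / s + R1 / s + C * (1 + R1 * (1 + Real.log (1 + R1))), ?_, hM, hN, hb, hMN, subset_univ _,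
    MeasurableSet.univ, ?_, ?_, ?_, ?_, ?_, ?_, ?_⟩
  · have : 0 ≤ (R1 + 1) / s + R1 / s + C * (1 + R1 * (1 + Real.log (1 + R1))) := by positivity
    linarith
  · unfold KA
    fun_prop
  · intro x _ w hw hne
    rw [Pool.Agent.H1.PU.ka_pf (hw0 w hw) (hw1 w hw) hne]
    unfold rA
    ring
  · intro w hw
    have e1 := hw0 w hw
    have e2 : w - 1 ≠ 0 := sub_ne_zero.2 (hw1 w hw)
    unfold rA
    exact ((differentiableOn_id.sub_const 1).div_const w).sub (differentiableOn_id.div_const (w - 1))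
  · intro x _
    unfold rA
    refine DifferentiableOn.sub ?_ ?_
    · exact (differentiableOn_const _).div differentiableOn_id fun w hw => hw0 w hw
    · exact (differentiableOn_const _).div (differentiableOn_id.sub_const 1) fun w hw => sub_ne_zero.2 (hw1 w hw)
  · intro x hx w hw
    have e1 : ‖(x - 1) / w‖ ≤ (R1 + 1) / s := by
      rw [norm_div]
      refine div_le_div₀ (by positivity) ?_ hs (h0 w hw)
      refine (norm_sub_le _ _).trans ?_
      rw [norm_one]
      linarith [hRN x hx]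
    have e2 : ‖x / (w - 1)‖ ≤ R1 / s := by
      rw [norm_div]
      exact div_le_div₀ hR10 (hRN x hx) hs (h1 w hw)
    have e3 : 0 ≤ C * (1 + R1 * (1 + Real.log (1 + R1))) := by positivity
    unfold rA
    refine (norm_sub_le _ _).trans ?_
    linarith
  · intro w _ hw x hx
    have hne : w - x ≠ 0 := by
      intro h2
      apply hw
      rw [sub_eq_zero.1 h2]
      exact hx
    unfold KA
    by_cases h2 : w * (w - 1) = 0
    · simp only [h2, zero_mul, div_zero]
      exact differentiableWithinAt_const _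
    · have h3 : DifferentiableAt ℂ (fun x : ℂ => x * (x - 1) / (w * (w - 1) * (w - x))) x := by
        refine DifferentiableAt.div ?_ ?_ (mul_ne_zero h2 hne)
        · exact differentiableAt_id.mul (differentiableAt_id.sub_const 1)
        · exact (differentiableAt_const _).mul ((differentiableAt_const _).sub differentiableAt_id)
      exact h3.differentiableWithinAt
  · intro x hx
    rw [setLIntegral_univ]
    refine (h x).trans (ENNReal.ofReal_le_ofReal ?_)
    have e1 := hRN x hx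
    have e2 : Real.log (1 + ‖x‖) ≤ Real.log (1 + R1) := Real.log_le_log (by linarith [norm_nonneg x]) (by linarith)
    have e3 : ‖x‖ * (1 + Real.log (1 + ‖x‖)) ≤ R1 * (1 + Real.log (1 + R1)) := by
      refine mul_le_mul e1 (by linarith) ?_ hR10
      have : 0 ≤ Real.log (1 + ‖x‖) := Real.log_nonneg (by linarith [norm_nonneg x])
      linarith
    have e4 := mul_le_mul_of_nonneg_left e3 hC.le
    have e5 : 0 ≤ (R1 + 1) / s + R1 / s := by positivity
    nlinarith

end Pool.Agent.H47.LI
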